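import Pool.Agent.QTW.Main

set_option autoImplicit false

namespace Pool.Agent.Results.MP_f4d5ac_nt.AlmostAllTwists

open Polynomial

/-- The number `N_f(B)` of squarefree integers `d` with `|d| < B` such that the twist
`d y² = f(x)` has a rational point with `y ≠ 0`. -/
noncomputable def N (f : Polynomial ℤ) (B : ℕ) : ℕ :=
  {d : ℤ | |d| < (B : ℤ) ∧ Squarefree d ∧
    ∃ x y : ℚ, y ≠ 0 ∧ (d : ℚ) * y ^ 2 = (f.map (Int.castRingHom ℚ)).eval x}.ncard

/-- The multiset of the (monic) irreducible factors of `f` over `ℚ`. -/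
noncomputable def factors (f : Polynomial ℤ) : Multiset (Polynomial ℚ) :=
  UniqueFactorizationMonoid.normalizedFactors (f.map (Int.castRingHom ℚ))

/-- **Almost all quadratic twists have no nontrivial rational point.**  Let `f` be an integer
polynomial without repeated roots, and suppose that

1. `f` has even degree, no rational root, and the number of its irreducible factors over `ℚ` of odd
   degree is different from `2`; or
2. `f = (x⁵ - x) h`, where all irreducible factors of `h` over `ℚ` have even degree.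

Then `N_f(B) ≤ C B / (log B)^δ` for all `B ≥ 3`, where `C, δ > 0` depend on `f` only. -/
theorem result (f : Polynomial ℤ) (hs : (f.map (Int.castRingHom ℚ)).Separable)
    (h : (Even f.natDegree ∧ (∀ x : ℚ, (f.map (Int.castRingHom ℚ)).eval x ≠ 0) ∧
        Multiset.card ((factors f).filter (fun q => Odd q.natDegree)) ≠ 2) ∨
      (∃ h : Polynomial ℤ, f = (X ^ 5 - X) * h ∧ ∀ q ∈ factors h, Even q.natDegree)) :
    ∃ δ C : ℝ, 0 < δ ∧ 0 < C ∧ ∀ B : ℕ, 3 ≤ B → (N f B : ℝ) ≤ C * B / Real.log B ^ δ := by
  have hN : ∀ B, N f B = Pool.Agent.QTW.Nf f B := fun _ => rfl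
  simp only [hN]
  rcases h with ⟨h1, h2, h3⟩ | ⟨h, rfl, h4⟩
  · exact Pool.Agent.QTW.main1 f hs h1 h2 h3
  · exact Pool.Agent.QTW.main2 h hs h4

end Pool.Agent.Results.MP_f4d5ac_nt.AlmostAllTwists
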