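import Pool.Agent.Helper57.PH.Poly

set_option autoImplicit false

namespace Pool.Agent.Results.MP_f4d5ac_nt.BoundedHeight

/-- The number of rational numbers `x` with numerator and denominator at most `H` in absolute value
which are the coordinate of a rational point with `y ≠ 0` on the twist `d y² = f(x)` by some
squarefree integer `d` with `|d| < B`. -/
noncomputable def X (f : Polynomial ℤ) (B H : ℕ) : ℕ :=
  {x : ℚ | |x.num| ≤ (H : ℤ) ∧ x.den ≤ H ∧ ∃ d : ℤ, |d| < (B : ℤ) ∧ Squarefree d ∧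
    ∃ y : ℚ, y ≠ 0 ∧ (d : ℚ) * y ^ 2 = (f.map (Int.castRingHom ℚ)).eval x}.ncard

/-- The number of squarefree integers `d` with `|d| < B` such that the twist `d y² = f(x)` has a
rational point with `y ≠ 0` whose coordinate `x` has numerator and denominator at most `H` in
absolute value. -/
noncomputable def N (f : Polynomial ℤ) (B H : ℕ) : ℕ :=
  {d : ℤ | |d| < (B : ℤ) ∧ Squarefree d ∧
    ∃ x y : ℚ, y ≠ 0 ∧ (d : ℚ) * y ^ 2 = (f.map (Int.castRingHom ℚ)).eval x ∧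
      |x.num| ≤ (H : ℤ) ∧ x.den ≤ H}.ncard

/-- The number of rational Weierstrass points of the curve `y² = f(x)`, for `f` without repeated
roots: the rational roots of `f`, and the point at infinity if the degree of `f` is odd. -/
noncomputable def W (f : Polynomial ℤ) : ℕ :=
  (f.map (Int.castRingHom ℚ)).roots.card + f.natDegree % 2

/-- **Few squarefree twists have a nontrivial rational point of polynomially bounded height.**
Let `f` be an integer polynomial without repeated roots, such that the curve `y² = f(x)` has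
`k ≥ 5` rational Weierstrass points.  Then for each `ε > 0` there is a `C` such that
`N f B H ≤ X f B H ≤ C B^(4/k + ε) H^ε` for all `B, H ≥ 1`. -/
theorem result (f : Polynomial ℤ) (hs : (f.map (Int.castRingHom ℚ)).Separable) (hW : 5 ≤ W f)
    (ε : ℝ) (hε : 0 < ε) :
    ∃ C : ℝ, ∀ B H : ℕ, 1 ≤ B → 1 ≤ H → N f B H ≤ X f B H ∧
      (X f B H : ℝ) ≤ C * (B : ℝ) ^ ((4 : ℝ) / W f + ε) * (H : ℝ) ^ ε := by
  classical
  obtain ⟨s, t, g, m, hc, hdet, hg, hTP⟩ := Pool.Agent.Helper57.PH.setup f hs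
  obtain ⟨C, _, hC⟩ := Pool.Agent.Helper57.PH.count (le_trans (by norm_num) hW) hc hdet hg hε
  refine ⟨C, fun B H hB hH => ⟨?_, hC B H hB hH _ ?_⟩⟩
  · have h1 : ∀ d ∈ {d : ℤ | |d| < (B : ℤ) ∧ Squarefree d ∧
        ∃ x y : ℚ, y ≠ 0 ∧ (d : ℚ) * y ^ 2 = (f.map (Int.castRingHom ℚ)).eval x ∧
          |x.num| ≤ (H : ℤ) ∧ x.den ≤ H}, ∃ x : ℚ,
        x ∈ {x : ℚ | |x.num| ≤ (H : ℤ) ∧ x.den ≤ H ∧ ∃ d : ℤ, |d| < (B : ℤ) ∧ Squarefree d ∧
          ∃ y : ℚ, y ≠ 0 ∧ (d : ℚ) * y ^ 2 = (f.map (Int.castRingHom ℚ)).eval x} ∧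
        ∃ y : ℚ, y ≠ 0 ∧ (d : ℚ) * y ^ 2 = (f.map (Int.castRingHom ℚ)).eval x := by
      rintro d ⟨h1, h2, x, y, h3, h4, h5, h6⟩
      exact ⟨x, ⟨h5, h6, d, h1, h2, y, h3, h4⟩, y, h3, h4⟩
    choose! φ hφ using h1
    refine Set.ncard_le_ncard_of_injOn φ (fun d hd => (hφ d hd).1) ?_ ?_
    · intro d hd d' hd' he
      obtain ⟨_, y, hy, hxy⟩ := hφ d hd
      obtain ⟨_, y', hy', hxy'⟩ := hφ d' hd'
      rw [← he] at hxy'
      exact Pool.Agent.Helper57.PH.sqf_unique hd.2.1 hd'.2.1 hy hy' (hxy.trans hxy'.symm)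
    · refine (Pool.Agent.Helper57.PH.finite_ht H).subset ?_
      rintro x ⟨h1, h2, _⟩
      rw [Int.abs_eq_natAbs] at h1
      exact max_le (by omega) h2
  · rintro x ⟨hx1, hx2, d, hdB, hsd, y, hy, hxy⟩
    rw [Int.abs_eq_natAbs] at hdB hx1
    exact ⟨by omega, hx2, d, hsd, by omega, hTP d x y hy hxy⟩

end Pool.Agent.Results.MP_f4d5ac_nt.BoundedHeight
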