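import Pool.Agent.SQT.Main

set_option autoImplicit false

namespace Pool.Agent.Results.MP_f4d5ac_nt.FullLowerBound

/-- The number `N_f(B)` of squarefree integers `d` with `|d| < B` such that the twist
`d y² = f(x)` has a rational point with `y ≠ 0`. -/
noncomputable def N (f : Polynomial ℤ) (B : ℕ) : ℕ :=
  {d : ℤ | |d| < (B : ℤ) ∧ Squarefree d ∧
    ∃ x y : ℚ, y ≠ 0 ∧ (d : ℚ) * y ^ 2 = (f.map (Int.castRingHom ℚ)).eval x}.ncard

/-- **The lower bound of the conjectured order for the number of squarefree twists with nontrivial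
rational points, for every hyperelliptic curve.**  Let `f` be an integer polynomial without repeated
roots, of degree `2 g + 1` or `2 g + 2` with `g ≥ 2`.  Then `N_f(B) ≥ c B^(1/(g+1))` for some
`c > 0` and all large `B`. -/
theorem result (f : Polynomial ℤ) (g : ℕ) (hg : 2 ≤ g)
    (hdeg : f.natDegree = 2 * g + 1 ∨ f.natDegree = 2 * g + 2)
    (hs : (f.map (Int.castRingHom ℚ)).Separable) :
    ∃ c : ℝ, 0 < c ∧ ∃ B₀ : ℕ, ∀ B : ℕ, B₀ ≤ B →
      c * (B : ℝ) ^ ((1 : ℝ) / (g + 1)) ≤ (N f B : ℝ) := by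
  have hN : ∀ B, N f B = Pool.Agent.Helper83.TW.Nf f B := fun _ => rfl
  have hex : (1 : ℝ) / (g + 1) = Pool.Agent.Helper83.TW.ex f := by
    have : (f.natDegree - 1) / 2 = g := by omega
    rw [Pool.Agent.Helper83.TW.ex, this]
  simp only [hN, hex]
  exact Pool.Agent.SQT.lower_all f (by omega) hs

end Pool.Agent.Results.MP_f4d5ac_nt.FullLowerBound
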