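import Pool.Agent.QTX.Main4
import Pool.Agent.QTX.Fin4

set_option autoImplicit false

namespace Pool.Agent.Results.MP_f4d5ac_nt.WeierstrassCongruence

open Polynomial

/-- `f` with rational coefficients. -/
noncomputable def fQ (f : Polynomial ℤ) : Polynomial ℚ := f.map (Int.castRingHom ℚ)

/-- The number of irreducible factors of `f` over `ℚ` of odd degree, plus `1` if the degree of `f` is
odd: the number of Galois orbits of odd size of Weierstrass points of `y² = f(x)`. -/
noncomputable def oddOrbits (f : Polynomial ℤ) : ℕ :=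
  Multiset.card ((UniqueFactorizationMonoid.normalizedFactors (fQ f)).filter
    (fun q => Odd q.natDegree)) + f.natDegree % 2

/-- The value of a polynomial at a point of the projective line; `none` is the point at infinity, where
the value is the leading coefficient. -/
noncomputable def value (G : Polynomial ℚ) : Option ℚ → ℚ
  | none => G.leadingCoeff
  | some a => G.eval a

/-- The rational Weierstrass points: the rational roots of `f` and, if the degree of `f` is odd, the
point at infinity `none`. -/
def IsWeierstrass (f : Polynomial ℤ) : Option ℚ → Prop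
  | none => Odd f.natDegree
  | some a => (fQ f).eval a = 0

/-- A rational number `x` is exceptional if there is a set `K` of one or two rational Weierstrass
points, or of four rational Weierstrass points which are all the Galois orbits of odd size, such that
`G(x) G(a)` is a rational square for all `a` in `K` and all `G` dividing `f` (over `ℚ`) which do not
vanish on `K` and are of even degree; if the degree of `f` is odd and the point at infinity is not in
`K`, the degree of `G` may be arbitrary. -/
def Exceptional (f : Polynomial ℤ) (x : ℚ) : Prop :=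
  ∃ K : Finset (Option ℚ), K.Nonempty ∧ (∀ a ∈ K, IsWeierstrass f a) ∧
    (K.card ≤ 2 ∨ (K.card = 4 ∧ (Odd f.natDegree → none ∈ K) ∧
      ∀ q ∈ UniqueFactorizationMonoid.normalizedFactors (fQ f),
        Odd q.natDegree → ∃ a : ℚ, some a ∈ K ∧ q.eval a = 0)) ∧
    ∀ G : Polynomial ℚ, G ∣ fQ f → (∀ a ∈ K, value G a ≠ 0) →
      (Even G.natDegree ∨ (Odd f.natDegree ∧ none ∉ K)) →
      ∀ a ∈ K, IsSquare (value G a * G.eval x)

/-- The number `N_f(B)` of squarefree integers `d` with `|d| < B` such that the twist
`d y² = f(x)` has a rational point with `y ≠ 0`. -/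
noncomputable def N (f : Polynomial ℤ) (B : ℕ) : ℕ :=
  {d : ℤ | |d| < (B : ℤ) ∧ Squarefree d ∧
    ∃ x y : ℚ, y ≠ 0 ∧ (d : ℚ) * y ^ 2 = (fQ f).eval x}.ncard

/-- The number of squarefree integers `d` with `|d| < B` such that the twist `d y² = f(x)` has a
rational point with `y ≠ 0` and `x` not exceptional. -/
noncomputable def NNonExc (f : Polynomial ℤ) (B : ℕ) : ℕ :=
  {d : ℤ | |d| < (B : ℤ) ∧ Squarefree d ∧ ∃ x y : ℚ, y ≠ 0 ∧
    (d : ℚ) * y ^ 2 = (fQ f).eval x ∧ ¬ Exceptional f x}.ncard

/-- **Rational points on almost all quadratic twists.**  Let `f` be an integer polynomial without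
repeated roots for which the number of Galois orbits of odd size of Weierstrass points is not `2`.

(a) For all but `C B / (log B)^δ` of the squarefree `d` with `|d| < B`, all nontrivial rational points
of the twist `d y² = f(x)` are exceptional.

(b) If only finitely many `x` are exceptional, then `N_f(B) ≤ C B / (log B)^δ`.

(c) If `deg f ≥ 7`, and if it is not the case that `deg f ≤ 8` and there are exactly four orbits of odd
size, all of them rational, then there are finitely many separable polynomials `h` of degree at least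
`5` over `ℚ` such that `h(x)` is a square for one of them whenever `x` is exceptional. -/
theorem result (f : Polynomial ℤ) (hs : (fQ f).Separable) (hw : oddOrbits f ≠ 2) :
    (∃ δ C : ℝ, 0 < δ ∧ 0 < C ∧
      ∀ B : ℕ, 3 ≤ B → (NNonExc f B : ℝ) ≤ C * B / Real.log B ^ δ) ∧
    ({x : ℚ | Exceptional f x}.Finite → ∃ δ C : ℝ, 0 < δ ∧ 0 < C ∧
      ∀ B : ℕ, 3 ≤ B → (N f B : ℝ) ≤ C * B / Real.log B ^ δ) ∧
    (7 ≤ f.natDegree → (f.natDegree ≤ 8 → ¬ (oddOrbits f = 4 ∧
        ∀ q ∈ UniqueFactorizationMonoid.normalizedFactors (fQ f),
          Odd q.natDegree → q.natDegree = 1)) →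
      ∃ S : Finset (Polynomial ℚ), (∀ h ∈ S, h.Separable ∧ 5 ≤ h.natDegree) ∧
        ∀ x : ℚ, Exceptional f x → ∃ h ∈ S, IsSquare (h.eval x)) := by
  have hv : value = Pool.Agent.QTW.pval := by
    funext G a
    cases a <;> rfl
  have hW : IsWeierstrass f = Pool.Agent.QTW.IsW f := by
    funext a
    cases a <;> rfl
  have hE : Exceptional f = Pool.Agent.QTW.Excep f := by
    funext x
    unfold Exceptional Pool.Agent.QTW.Excep
    rw [hv, hW]
    rfl
  have hN : ∀ B, NNonExc f B = Pool.Agent.QTW.NfE f (Pool.Agent.QTW.Excep f) B := by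
    intro B
    unfold NNonExc
    rw [hE]
    rfl
  have hN' : ∀ B, N f B = Pool.Agent.QTW.Nf f B := fun _ => rfl
  have h1 := Pool.Agent.QTW.main4 f hs hw
  simp only [hN, hN', hE]
  refine ⟨h1, fun hfin => ?_, fun hdeg hex => Pool.Agent.QTW.curves4 f hs hdeg hw hex⟩
  obtain ⟨δ, C, hδ, hC, h⟩ := h1
  exact Pool.Agent.QTW.fin4 hfin hδ hC h

end Pool.Agent.Results.MP_f4d5ac_nt.WeierstrassCongruence
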